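import Pool.Agent.H7.TRI.Stmts

set_option linter.unusedVariables false
set_option linter.unusedSectionVars false

open Finset

namespace Pool.TRI

lemma COV_card {V : Type} [Fintype V] [DecidableEq V] (G : SimpleGraph V) (C A : Finset V)
    (hA : A ⊆ C) (a : V) [DecidablePred (fun b => a ∉ cn G b)] :
    (A.filter (fun b => a ∉ cn G b)).card ≤ df G C a := by
  unfold df
  apply card_le_card
  intro b hb
  rw [mem_filter] at hb
  rw [mem_sdiff]
  refine ⟨hA hb.1, fun h => hb.2 ?_⟩
  exact mem_cn_comm.1 h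

lemma COV_uniq {V : Type} [Fintype V] [DecidableEq V] (G : SimpleGraph V) (C : Finset V)
    (u a b : V) (hdf : df G C u = 1) (ha : a ∈ C \ cn G u) (hb : b ∈ C \ cn G u) : a = b := by
  unfold df at hdf
  rw [card_eq_one] at hdf
  obtain ⟨c, hc⟩ := hdf
  rw [hc, mem_singleton] at ha hb
  rw [ha, hb]

lemma COV_pos {V : Type} [Fintype V] [DecidableEq V] (G : SimpleGraph V) (C : Finset V)
    (u a : V) (ha : a ∈ C \ cn G u) : 0 < df G C u := by
  unfold df
  exact card_pos.2 ⟨a, ha⟩

lemma COV_ss {V : Type} [Fintype V] [DecidableEq V] (G : SimpleGraph V) (C : Finset V)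
    (u : V) (hu : u ∈ SS G C) : df G C u = 0 := by
  have h := (mem_SS.1 hu).2
  unfold df
  rw [h, sdiff_self]
  rfl

theorem COV_thm (h1 : MISStmt) (h2 : RCHStmt) (h3 : PARStmt) : COVStmt := by
  classical
  intro V _ _ G d m hyp C hC
  obtain ⟨hcard, hSX, hSS2, hXX2, hSSex, hXXiff, hsum, hdfle⟩ := h2 V G d m hyp C hC
  obtain ⟨hp1, hp2, hp3, hI, hL, hJ⟩ := h3 V G d m hyp C hC
  have hIC : Iso G C ⊆ C := fun w hw => (mem_Iso.1 hw).1
  have hJC : J2 G C ⊆ C := fun w hw => (mem_Jc.1 (mem_J2.1 hw).1).1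
  have hLC : Lf G C ⊆ C := fun w hw => (mem_Lf.1 hw).1
  have hSC : SS G C ⊆ C := fun w hw => (mem_SS.1 hw).1
  obtain ⟨T, hT, hTi, hTc⟩ := h1 V (Iso G C) (fun a b => a ∉ cn G b) 1
    (fun a b h h' => h (mem_cn_comm.1 h'))
    (fun a ha => (COV_card G C (Iso G C) hIC a).trans (mem_Iso.1 ha).2.1.le)
  obtain ⟨I, hIs, hIi, hIc⟩ := h1 V (J2 G C) (fun a b => a ∉ cn G b) 2
    (fun a b h h' => h (mem_cn_comm.1 h'))
    (fun a ha => (COV_card G C (J2 G C) hJC a).trans (mem_J2.1 ha).2.1.le)
  refine ⟨I.card, ?_, by omega⟩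
  have hd1 : Disjoint (SS G C) T := by
    rw [disjoint_left]
    intro w hw hw'
    have e1 := COV_ss G C w hw
    have e2 := (mem_Iso.1 (hT hw')).2.1
    omega
  have hd2 : Disjoint (SS G C ∪ T) (Lf G C) := by
    rw [disjoint_left]
    intro w hw hw'
    obtain ⟨_, e2, u, hu, hu1⟩ := mem_Lf.1 hw'
    rcases mem_union.1 hw with h | h
    · have e1 := COV_ss G C w h
      omega
    · exact hu1 ((mem_Iso.1 (hT h)).2.2 u hu)
  have hd3 : Disjoint ((SS G C ∪ T) ∪ Lf G C) I := by
    rw [disjoint_left]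
    intro w hw hw'
    have e3 := (mem_J2.1 (hIs hw')).2.1
    rcases mem_union.1 hw with h | h
    · rcases mem_union.1 h with h | h
      · have e1 := COV_ss G C w h
        omega
      · have e2 := (mem_Iso.1 (hT h)).2.1
        omega
    · have e2 := (mem_Lf.1 h).2.1
      omega
  have hK : (((SS G C ∪ T) ∪ Lf G C) ∪ I).card
      = (SS G C).card + T.card + (Lf G C).card + I.card := by
    rw [card_union_of_disjoint hd3, card_union_of_disjoint hd2, card_union_of_disjoint hd1]
  have hmem : ∀ w ∈ (((SS G C ∪ T) ∪ Lf G C) ∪ I),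
      w ∈ SS G C ∨ w ∈ T ∨ w ∈ Lf G C ∨ w ∈ I := by
    intro w hw
    rcases mem_union.1 hw with h | h
    · rcases mem_union.1 h with h | h
      · rcases mem_union.1 h with h | h
        · exact Or.inl h
        · exact Or.inr (Or.inl h)
      · exact Or.inr (Or.inr (Or.inl h))
    · exact Or.inr (Or.inr (Or.inr h))
  have hmC : ∀ w, (w ∈ SS G C ∨ w ∈ T ∨ w ∈ Lf G C ∨ w ∈ I) → w ∈ C := by
    rintro w (h | h | h | h)
    · exact hSC h
    · exact hIC (hT h)
    · exact hLC h
    · exact hJC (hIs h)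
  have hcl := hyp.clq (((SS G C ∪ T) ∪ Lf G C) ∪ I) (by
    intro u hu v hv huv
    by_contra hadj
    have hu' := hmem u hu
    have hv' := hmem v hv
    have huC := hmC u hu'
    have hvC := hmC v hv'
    have hvu : v ∈ C \ cn G u := by
      rw [mem_sdiff]
      refine ⟨hvC, fun h => ?_⟩
      rcases mem_cn.1 h with h | h
      · exact huv h.symm
      · exact hadj h
    have huv' : u ∈ C \ cn G v := (mem_sdiff_comm hvC huC).1 hvu
    have hpu := COV_pos G C u v hvu
    have hpv := COV_pos G C v u huv'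
    rcases hu' with h | h | h | h
    · have e1 := COV_ss G C u h
      omega
    · obtain ⟨_, e1, e2⟩ := mem_Iso.1 (hT h)
      have e3 := e2 v hvu
      rcases hv' with k | k | k | k
      · have e4 := COV_ss G C v k
        omega
      · exact hTi v k u h (Ne.symm huv) (mem_sdiff.1 hvu).2
      · obtain ⟨_, f1, w, hw, hw1⟩ := mem_Lf.1 k
        have e5 := COV_uniq G C v w u f1 hw huv'
        rw [e5] at hw1
        exact hw1 e1
      · have f1 := (mem_J2.1 (hIs k)).2.1
        omega
    · obtain ⟨_, e1, w, hw, hw1⟩ := mem_Lf.1 h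
      have e5 := COV_uniq G C u w v e1 hw hvu
      rw [e5] at hw1
      rcases hv' with k | k | k | k
      · have e4 := COV_ss G C v k
        omega
      · exact hw1 (mem_Iso.1 (hT k)).2.1
      · exact hw1 (mem_Lf.1 k).2.1
      · have f1 := (mem_J2.1 (hIs k)).2.2 u huv'
        omega
    · have f1 := (mem_J2.1 (hIs h)).2.2 v hvu
      rcases hv' with k | k | k | k
      · have e4 := COV_ss G C v k
        omega
      · have e4 := (mem_Iso.1 (hT k)).2.1
        omega
      · have e4 := (mem_Lf.1 k).2.1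
        omega
      · exact hIi v k u h (Ne.symm huv) (mem_sdiff.1 hvu).2)
  rw [hK] at hcl
  have e1 : (Iso G C).card ≤ 2 * T.card := by omega
  omega

end Pool.TRI
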