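import Pool.Agent.H89.TRI.Lib

/-! Module ALGD: derivatives of nets. -/

open MvPolynomial

namespace Pool.TRI.K

private noncomputable def fC : ℤ → MP := fun a => (C (a : ℝ) : MP)

private noncomputable def lr (r : Row) : MP := lin (A := MP) fC r (X 1) (X 2)

private theorem toP_nil : toP [] = 0 := rfl

private theorem toP_cons (r : Row) (P : Net) : toP (r :: P) = lr r + X 0 * toP P := by
  unfold toP lr fC
  rw [ter_cons, smul_eq_mul]

private theorem lr_nil : lr [] = 0 := rfl

private theorem lr_cons (a : ℤ) (r : Row) : lr (a :: r) = X 2 ^ r.length * fC a + X 1 * lr r := by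
  unfold lr
  rw [lin_cons, smul_eq_mul, smul_eq_mul]

private theorem fC_mul (a b : ℤ) : fC (a * b) = fC a * fC b := by
  unfold fC; push_cast; rw [C_mul]

private theorem fC_nat (k : ℕ) : fC (k : ℤ) = (k : MP) := by
  unfold fC; push_cast; simp

private theorem fC_succ (k : ℤ) : fC (k + 1) = fC k + 1 := by
  unfold fC; push_cast; simp

private theorem pd_fC (i : Fin 3) (a : ℤ) : pderiv i (fC a) = 0 := by
  unfold fC; exact pderiv_C

private theorem pd0_lr (r : Row) : pderiv 0 (lr r) = 0 := by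
  induction r with
  | nil => simp [lr_nil]
  | cons a r ih =>
    rw [lr_cons, map_add, pderiv_mul, pderiv_mul, ih, pd_fC, pderiv_pow, pderiv_X_of_ne, pderiv_X_of_ne]
    · simp
    · decide
    · decide

private theorem row_sm (c : ℤ) (l : Row) : lr (smR c l) = fC c * lr l := by
  unfold lr
  rw [smR_eq, lin_map]
  have h : (fun b : ℤ => fC (c * b)) = fun b => fC c • fC b := by
    funext b; rw [fC_mul, smul_eq_mul]
  rw [h, lin_smul, smul_eq_mul]

private theorem upN_nil (k : ℤ) : upN [] k = [] := rfl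
private theorem upN_cons (r : Row) (P : Net) (k : ℤ) : upN (r :: P) k = smR k r :: upN P (k + 1) := rfl
private theorem up_nil (k : ℤ) : up [] k = [] := rfl
private theorem up_cons (a : ℤ) (l : Row) (k : ℤ) : up (a :: l) k = k * a :: up l (k + 1) := rfl

private theorem up_length (l : Row) (k : ℤ) : (up l k).length = l.length := by
  induction l generalizing k with
  | nil => rfl
  | cons a l ih => rw [up_cons, List.length_cons, ih, List.length_cons]

private theorem toP_upN (L : Net) (k : ℤ) : toP (upN L k) = fC k * toP L + X 0 * pderiv 0 (toP L) := by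
  induction L generalizing k with
  | nil => simp [upN_nil, toP_nil]
  | cons r L ih =>
    rw [upN_cons, toP_cons, toP_cons, ih, row_sm, fC_succ, map_add, pderiv_mul, pd0_lr, pderiv_X_self]
    ring

private theorem lr_up (l : Row) (k : ℤ) : lr (up l k) = fC k * lr l + X 1 * pderiv 1 (lr l) := by
  induction l generalizing k with
  | nil => simp [up_nil, lr_nil]
  | cons a l ih =>
    rw [up_cons, lr_cons, lr_cons, ih, fC_succ, fC_mul, map_add, pderiv_mul, pderiv_mul, pd_fC, pderiv_pow,
      pderiv_X_self, pderiv_X_of_ne (by decide : (2 : Fin 3) ≠ 1), up_length]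
    ring

private theorem dyR_cons (a : ℤ) (l : Row) : dyR (a :: l) = up l 1 := rfl

private theorem lr_dyR (l : Row) : lr (dyR l) = pderiv 1 (lr l) := by
  cases l with
  | nil => simp [show dyR [] = [] from rfl, lr_nil]
  | cons a l =>
    rw [dyR_cons, lr_up, lr_cons, map_add, pderiv_mul, pderiv_mul, pd_fC, pderiv_pow, pderiv_X_self,
      pderiv_X_of_ne (by decide : (2 : Fin 3) ≠ 1)]
    have : fC 1 = 1 := by simp [fC]
    rw [this]; ring

private theorem dyR_length (l : Row) : (dyR l).length = l.length - 1 := by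
  cases l with
  | nil => rfl
  | cons a l => rw [dyR_cons, up_length]; simp

private theorem dzR_snd (l : Row) : (dzR l).2 = (l.length : ℤ) := by
  induction l with
  | nil => rfl
  | cons c l ih =>
    have e : (dzR (c :: l)).2 = (dzR l).2 + 1 := rfl
    rw [e, ih]; simp

private theorem dzR_one (c : ℤ) : (dzR [c]).1 = [] := rfl

private theorem dzR_cons (c b : ℤ) (l : Row) :
    (dzR (c :: b :: l)).1 = ((b :: l).length : ℤ) * c :: (dzR (b :: l)).1 := by
  have e : (dzR (c :: b :: l)).1 =
      Int.rec (motive := fun _ => Row) (fun k => Nat.rec (motive := fun _ => Row) []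
        (fun _ _ => Int.mul (dzR (b :: l)).2 c :: (dzR (b :: l)).1) k) (fun _ => []) (dzR (b :: l)).2 := rfl
  rw [e, dzR_snd]
  rfl

private theorem dzR_length (l : Row) : (dzR l).1.length = l.length - 1 := by
  induction l with
  | nil => rfl
  | cons c l ih =>
    cases l with
    | nil => rfl
    | cons b l => rw [dzR_cons, List.length_cons, ih]; simp

private theorem lr_dzR (l : Row) : lr (dzR l).1 = pderiv 2 (lr l) := by
  induction l with
  | nil => simp [show dzR [] = ([], 0) from rfl, lr_nil]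
  | cons c l ih =>
    cases l with
    | nil => rw [dzR_one, lr_nil, lr_cons, lr_nil]; simp [pd_fC]
    | cons b l =>
      rw [dzR_cons, lr_cons, ih, dzR_length, fC_mul, fC_nat, lr_cons c (b :: l), map_add, pderiv_mul, pderiv_mul,
        pd_fC, pderiv_pow, pderiv_X_self, pderiv_X_of_ne (by decide : (1 : Fin 3) ≠ 2)]
      simp only [List.length_cons, Nat.add_sub_cancel]
      push_cast
      ring

private theorem d1_aux (n : ℕ) (P : Net) (h : Sh (n + 1) P) : Sh n (d1 P) ∧ toP (d1 P) = pderiv 0 (toP P) := by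
  obtain ⟨r, P', rfl, h1, h2⟩ := (Sh_succ n P).1 h
  have e : d1 (r :: P') = upN P' 1 := rfl
  rw [e]
  refine ⟨?_, ?_⟩
  · have key : ∀ (m : ℕ) (Q : Net) (k : ℤ), Sh m Q → Sh m (upN Q k) := by
      intro m
      induction m with
      | zero => intro Q k hQ; rw [Sh_zero] at hQ; subst hQ; rfl
      | succ m ih =>
        intro Q k hQ
        obtain ⟨q, Q', rfl, k1, k2⟩ := (Sh_succ m Q).1 hQ
        rw [upN_cons, Sh_cons]
        exact ⟨by rw [smR_eq]; simp [k1], ih Q' _ k2⟩
    exact key n P' 1 h2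
  · rw [toP_upN, toP_cons, map_add, pd0_lr, pderiv_mul, pderiv_X_self]
    have : fC 1 = 1 := by simp [fC]
    rw [this]; ring

/-- the last row is dropped after a map which removes the last entry of each row -/
private theorem dl_aux (g : Row → Row) (i : Fin 3) (hi : (0 : Fin 3) ≠ i) (hg : ∀ l, lr (g l) = pderiv i (lr l))
    (hl : ∀ l, (g l).length = l.length - 1) (n : ℕ) (P : Net) (h : Sh (n + 1) P) :
    Sh n (dl (mp g P)) ∧ toP (dl (mp g P)) = pderiv i (toP P) := by
  rw [mp_eq]
  induction n generalizing P with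
  | zero =>
    obtain ⟨r, P', rfl, h1, h2⟩ := (Sh_succ 0 P).1 h
    rw [Sh_zero] at h2
    subst h2
    refine ⟨rfl, ?_⟩
    have e : g r = [] := by
      have := hl r
      rw [h1] at this
      exact List.length_eq_zero_iff.1 this
    rw [List.map_cons, List.map_nil, dl_single, toP_nil, toP_cons, toP_nil, map_add, ← hg, e, lr_nil]
    simp
  | succ n ih =>
    obtain ⟨r, P', rfl, h1, h2⟩ := (Sh_succ (n + 1) P).1 h
    obtain ⟨i1, i2⟩ := ih P' h2
    obtain ⟨q, P'', rfl, k1, k2⟩ := (Sh_succ n P').1 h2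
    rw [List.map_cons, List.map_cons, dl_cons]
    rw [List.map_cons] at i1 i2
    refine ⟨?_, ?_⟩
    · rw [Sh_cons]; exact ⟨by rw [hl, h1]; rfl, i1⟩
    · rw [toP_cons, toP_cons r, i2, hg, map_add, pderiv_mul, pderiv_X_of_ne hi]
      ring

private theorem d2_aux (n : ℕ) (P : Net) (h : Sh (n + 1) P) : Sh n (d2 P) ∧ toP (d2 P) = pderiv 1 (toP P) :=
  dl_aux dyR 1 (by decide) lr_dyR dyR_length n P h

private theorem d3_aux (n : ℕ) (P : Net) (h : Sh (n + 1) P) : Sh n (d3 P) ∧ toP (d3 P) = pderiv 2 (toP P) :=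
  dl_aux (fun r => Prod.fst (dzR r)) 2 (by decide) lr_dzR dzR_length n P h

private theorem row_sub (l m : Row) (h : l.length = m.length) : lr (subR l m) = lr l - lr m := by
  unfold lr
  have hn : ∀ l : Row, lin (A := MP) (fun a => -fC a) l (X 1) (X 2) = -lin (A := MP) fC l (X 1) (X 2) := by
    intro l
    induction l with
    | nil => simp
    | cons a l ih => simp only [lin_cons, ih, smul_eq_mul]; ring
  rw [subR_eq, lin_zip (A := MP) (fun a b : ℤ => a - b) fC fC (fun b => -fC b) ?_ l m h _ _, hn, sub_eq_add_neg]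
  intro a b
  show fC (a - b) = fC a + -fC b
  unfold fC
  push_cast
  rw [C_sub, sub_eq_add_neg]

private theorem sub_aux (n : ℕ) (P Q : Net) (hP : Sh n P) (hQ : Sh n Q) :
    Sh n (subN P Q) ∧ toP (subN P Q) = toP P - toP Q := by
  induction n generalizing P Q with
  | zero =>
    rw [Sh_zero] at hP hQ
    subst hP hQ
    rw [subN_eq]
    exact ⟨rfl, by simp [toP_nil]⟩
  | succ n ih =>
    obtain ⟨r, P', rfl, h1, h2⟩ := (Sh_succ n P).1 hP
    obtain ⟨q, Q', rfl, k1, k2⟩ := (Sh_succ n Q).1 hQ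
    obtain ⟨i1, i2⟩ := ih P' Q' h2 k2
    have e : subN (r :: P') (q :: Q') = subR r q :: subN P' Q' := rfl
    rw [e]
    refine ⟨(Sh_cons _ _ _).2 ⟨?_, i1⟩, ?_⟩
    · rw [subR_eq]; simp [h1, k1]
    · rw [toP_cons, toP_cons, toP_cons, i2, row_sub r q (h1.trans k1.symm)]; ring

theorem algd : ALGDStmt := by
  intro n P h
  obtain ⟨a1, b1⟩ := d1_aux n P h
  obtain ⟨a2, b2⟩ := d2_aux n P h
  obtain ⟨a3, b3⟩ := d3_aux n P h
  refine ⟨?_, ?_, ?_⟩
  · obtain ⟨u, v⟩ := sub_aux n _ _ a2 a3
    exact ⟨u, by show toP (subN (d2 P) (d3 P)) = _; rw [v, b2, b3]; rfl⟩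
  · obtain ⟨u, v⟩ := sub_aux n _ _ a3 a1
    exact ⟨u, by show toP (subN (d3 P) (d1 P)) = _; rw [v, b3, b1]; rfl⟩
  · obtain ⟨u, v⟩ := sub_aux n _ _ a1 a2
    exact ⟨u, by show toP (subN (d1 P) (d2 P)) = _; rw [v, b1, b2]; rfl⟩

end Pool.TRI.K
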