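import Pool.Agent.H89.TRI.Lib

/-! Module ALGM: products of nets, powers of `x1 + x2 + x3`. -/

open MvPolynomial

namespace Pool.TRI.K

private noncomputable def fC : ℤ → MP := fun a => (C (a : ℝ) : MP)

private noncomputable def lr (r : Row) : MP := lin (A := MP) fC r (X 1) (X 2)

private theorem toP_nil : toP [] = 0 := rfl

private theorem toP_cons (r : Row) (P : Net) : toP (r :: P) = lr r + X 0 * toP P := by
  unfold toP lr fC
  rw [ter_cons, smul_eq_mul]

private theorem fC_add (a b : ℤ) : fC (Int.add a b) = fC a + fC b := by
  show fC (a + b) = _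
  unfold fC; push_cast; rw [C_add]

private theorem fC_mul (a b : ℤ) : fC (Int.mul a b) = fC a * fC b := by
  show fC (a * b) = _
  unfold fC; push_cast; rw [C_mul]

/-- rows of length `N, N-1, ...` -/
private def Shp : ℕ → List Row → Prop
  | _, [] => True
  | N, r :: P => r.length = N ∧ Shp (N - 1) P

private theorem sh_iff (n : ℕ) (P : Net) : Sh n P ↔ Shp n P ∧ P.length = n := by
  induction n generalizing P with
  | zero =>
    cases P with
    | nil => simp [Sh, Shp]
    | cons r P => simp [Sh]
  | succ n ih =>
    cases P with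
    | nil => simp [Sh]
    | cons r P => simp only [Sh_cons, Shp, ih, Nat.add_sub_cancel, List.length_cons, add_left_inj]; tauto

/-! ### rows -/

private theorem lin_zl (l m : Row) (h : l.length ≤ m.length ∨ m = []) :
    lr (zl Int.add l m) = X 2 ^ (m.length - l.length) * lr l + lr m := by
  unfold lr
  induction l generalizing m with
  | nil => simp
  | cons a l ih =>
    cases m with
    | nil => simp
    | cons b m =>
      have h' : l.length ≤ m.length := by
        rcases h with h | h
        · simpa using h
        · simp at h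
      rw [zl_cons, lin_cons, lin_cons, lin_cons, ih m (Or.inl h'), zl_length, max_eq_right h', fC_add]
      simp only [smul_eq_mul, List.length_cons, Nat.add_sub_add_right]
      have e : (X 2 : MP) ^ m.length = X 2 ^ (m.length - l.length) * X 2 ^ l.length := by
        rw [← pow_add]; congr 1; omega
      rw [e]; ring

private theorem lr_map_mul (c : ℤ) (l : Row) : lr (l.map (Int.mul c)) = fC c * lr l := by
  unfold lr
  rw [lin_map]
  have h : (fun b : ℤ => fC (Int.mul c b)) = fun b => fC c • fC b := by
    funext b; rw [fC_mul, smul_eq_mul]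
  rw [h, lin_smul, smul_eq_mul]

private theorem lr_cv (c : Row) (E : Row) : lr (cv Int.add Int.mul c E) = lr c * lr E := by
  cases E with
  | nil => rw [cv_nil']; simp [lr]
  | cons e E =>
    induction c with
    | nil => simp [lr]
    | cons a c ih =>
      have hl : (List.map (Int.mul a) E).length ≤ (cv Int.add Int.mul c (e :: E)).length ∨
          cv Int.add Int.mul c (e :: E) = [] := by
        by_cases hc : c = []
        · right; subst hc; rfl
        · left
          rw [cv_length _ _ c (e :: E) hc (by simp), List.length_map, List.length_cons]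
          have : 0 < c.length := List.length_pos_iff.2 hc
          omega
      have hL : (zl Int.add (List.map (Int.mul a) E) (cv Int.add Int.mul c (e :: E))).length =
          c.length + E.length := by
        rw [zl_length, List.length_map]
        by_cases hc : c = []
        · subst hc; simp
        · rw [cv_length _ _ c (e :: E) hc (by simp), List.length_cons]
          omega
      have hs : (cv Int.add Int.mul c (e :: E)).length - (List.map (Int.mul a) E).length = c.length := by
        rw [List.length_map]
        by_cases hc : c = []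
        · subst hc; simp
        · rw [cv_length _ _ c (e :: E) hc (by simp), List.length_cons]
          omega
      have key : lr (cv Int.add Int.mul (a :: c) (e :: E)) =
          X 2 ^ (c.length + E.length) * (fC a * fC e) +
            X 1 * lr (zl Int.add (List.map (Int.mul a) E) (cv Int.add Int.mul c (e :: E))) := by
        rw [cv_cons]
        unfold lr
        rw [lin_cons, hL, fC_mul, smul_eq_mul, smul_eq_mul]
      have e1 : lr (a :: c) = X 2 ^ c.length * fC a + X 1 * lr c := by
        unfold lr; rw [lin_cons, smul_eq_mul, smul_eq_mul]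
      have e2 : lr (e :: E) = X 2 ^ E.length * fC e + X 1 * lr E := by
        unfold lr; rw [lin_cons, smul_eq_mul, smul_eq_mul]
      rw [key, lin_zl _ _ hl, hs, lr_map_mul, ih, e1, e2, pow_add]
      ring

private theorem cvr_length (c E : Row) (hc : c ≠ []) (hE : E ≠ []) :
    (cv Int.add Int.mul c E).length = c.length + E.length - 1 := cv_length _ _ c E hc hE

/-! ### nets -/

private theorem zl_net (N : ℕ) (A B : Net) (hA : Shp N A) (hB : Shp N B) :
    Shp N (zl (zw Int.add) A B) ∧ toP (zl (zw Int.add) A B) = toP A + toP B := by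
  induction A generalizing N B with
  | nil => simpa [toP_nil] using hB
  | cons r A ih =>
    cases B with
    | nil => simpa [toP_nil] using hA
    | cons q B =>
      obtain ⟨h1, h2⟩ := hA
      obtain ⟨k1, k2⟩ := hB
      obtain ⟨i1, i2⟩ := ih (N - 1) B h2 k2
      rw [zl_cons]
      have hz : zw Int.add r q = List.zipWith (fun a b : ℤ => Int.add a b) r q := zw_eq _ _ _
      refine ⟨⟨?_, i1⟩, ?_⟩
      · rw [hz]; simp [h1, k1]
      · rw [toP_cons, toP_cons, toP_cons, i2]
        have : lr (zw Int.add r q) = lr r + lr q := by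
          rw [hz]
          exact lin_zip _ _ _ _ (fun a b => fC_add a b) r q (h1.trans k1.symm) _ _
        rw [this]; ring

private theorem map_cv (r : Row) (Q : Net) :
    toP (Q.map (cv Int.add Int.mul r)) = lr r * toP Q := by
  induction Q with
  | nil => simp [toP_nil]
  | cons q Q ih => rw [List.map_cons, toP_cons, toP_cons, ih, lr_cv]; ring

private theorem map_shp (r : Row) (m : ℕ) (Q : Net) (hr : r ≠ []) (hQ : Sh m Q) :
    Shp (r.length + m - 1) (Q.map (cv Int.add Int.mul r)) := by
  induction m generalizing Q with
  | zero => rw [Sh_zero] at hQ; subst hQ; trivial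
  | succ m ih =>
    obtain ⟨q, Q', rfl, k1, k2⟩ := (Sh_succ m Q).1 hQ
    have hp : 0 < r.length := List.length_pos_iff.2 hr
    refine ⟨?_, ?_⟩
    · rw [cvr_length r q hr (by intro h; rw [h] at k1; simp at k1), k1]
    · have : r.length + (m + 1) - 1 - 1 = r.length + m - 1 := by omega
      rw [this]
      exact ih Q' k2

private theorem mul_aux (n m : ℕ) (P Q : Net) (hP : Sh (n + 1) P) (hQ : Sh (m + 1) Q) :
    Sh (n + m + 1) (mulN P Q) ∧ toP (mulN P Q) = toP P * toP Q := by
  obtain ⟨q, Q', rfl, k1, k2⟩ := (Sh_succ m Q).1 hQ
  have hq : q ≠ [] := by intro h; rw [h] at k1; simp at k1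
  induction n generalizing P with
  | zero =>
    obtain ⟨r, P', rfl, h1, h2⟩ := (Sh_succ 0 P).1 hP
    rw [Sh_zero] at h2
    subst h2
    have hr : r ≠ [] := by intro h; rw [h] at h1; simp at h1
    have e : mulN [r] (q :: Q') = (q :: Q').map (cv Int.add Int.mul r) := by
      unfold mulN
      rw [cv_cons, cv_nil, zl_nil', List.map_cons]
    rw [e]
    refine ⟨?_, ?_⟩
    · rw [sh_iff]
      refine ⟨?_, by simp [Sh_length k2]⟩
      have := map_shp r (m + 1) (q :: Q') hr hQ
      have e2 : r.length + (m + 1) - 1 = 0 + m + 1 := by omega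
      rwa [e2] at this
    · rw [map_cv, toP_cons r [], toP_nil]; ring
  | succ n ih =>
    obtain ⟨r, P', rfl, h1, h2⟩ := (Sh_succ (n + 1) P).1 hP
    have hr : r ≠ [] := by intro h; rw [h] at h1; simp at h1
    obtain ⟨i1, i2⟩ := ih P' h2
    have e : mulN (r :: P') (q :: Q') = cv Int.add Int.mul r q ::
        zl (zw Int.add) (Q'.map (cv Int.add Int.mul r)) (mulN P' (q :: Q')) := by
      unfold mulN
      rw [cv_cons]
    have s1 : Shp (n + m + 1) (Q'.map (cv Int.add Int.mul r)) := by
      have := map_shp r m Q' hr k2
      have e2 : r.length + m - 1 = n + m + 1 := by omega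
      rwa [e2] at this
    have s2 := (sh_iff _ _).1 i1
    obtain ⟨z1, z2⟩ := zl_net (n + m + 1) _ _ s1 s2.1
    rw [e]
    refine ⟨?_, ?_⟩
    · have e3 : n + 1 + m + 1 = (n + m + 1) + 1 := by omega
      rw [e3, Sh_cons]
      refine ⟨?_, ?_⟩
      · rw [cvr_length r q hr hq, h1, k1]; omega
      · rw [sh_iff]
        refine ⟨z1, ?_⟩
        rw [zl_length, List.length_map, Sh_length k2, s2.2]
        omega
    · rw [toP_cons, z2, map_cv, i2, lr_cv, toP_cons r P', toP_cons q Q']
      ring

theorem algm : ALGMStmt := by
  refine ⟨fun n m P Q hP hQ => mul_aux n m P Q hP hQ, ?_⟩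
  intro n
  induction n with
  | zero =>
    have e : sig 0 = [[1]] := rfl
    rw [e]
    refine ⟨⟨rfl, rfl⟩, ?_⟩
    rw [toP_cons, toP_nil]
    simp [lr, fC]
  | succ n ih =>
    obtain ⟨h1, h2⟩ := ih
    obtain ⟨r, P', hs, r1, r2⟩ := (Sh_succ n (sig n)).1 h1
    have e : sig (n + 1) = cv Int.add Int.mul [1, 1] r ::
        zl addR (P'.map (cv Int.add Int.mul [1, 1])) (r :: P') := by
      have e0 : sig (n + 1) = List.rec (motive := fun _ => Net) [] (fun r P' _ =>
        cv Int.add Int.mul [1, 1] r :: zl addR (mp (cv Int.add Int.mul [1, 1]) P') (r :: P')) (sig n) := rfl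
      rw [e0, hs, ← mp_eq]
    have hr : r ≠ [] := by intro h; rw [h] at r1; simp at r1
    have s1 : Shp (n + 1) (P'.map (cv Int.add Int.mul [1, 1])) := by
      have := map_shp [1, 1] n P' (by simp) r2
      have e2 : ([1, 1] : Row).length + n - 1 = n + 1 := by simp; omega
      rwa [e2] at this
    have s2 := (sh_iff _ _).1 h1
    rw [hs] at s2
    obtain ⟨z1, z2⟩ := zl_net (n + 1) _ _ s1 s2.1
    have l11 : lr [1, 1] = X 2 + X 1 := by simp [lr, fC]
    rw [e]
    refine ⟨?_, ?_⟩
    · rw [Sh_cons]
      refine ⟨?_, ?_⟩
      · rw [cvr_length [1, 1] r (by simp) hr, r1]; simp; omega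
      · rw [sh_iff]
        refine ⟨z1, ?_⟩
        have := s2.2
        simp only [List.length_cons] at this
        show (zl addR _ _).length = _
        rw [zl_length, List.length_map, List.length_cons]
        omega
    · have z2' : toP (zl addR (P'.map (cv Int.add Int.mul [1, 1])) (r :: P')) = _ := z2
      rw [toP_cons, z2', map_cv, lr_cv, l11, pow_succ, ← h2, hs, toP_cons r P']
      ring

end Pool.TRI.K
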