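import Pool.Agent.H89.TRI.Lib

/-! Module CHI: the two children of a net. -/

open MvPolynomial

namespace Pool.TRI.K

private theorem ch1 {β : Type} (g : List β → List β) (hl : ∀ l, (g l).length = l.length) (n : ℕ) (P : List (List β))
    (h : Sh n P) : Sh n (P.map g) := by
  induction n generalizing P with
  | zero => rw [Sh_zero] at h; subst h; rfl
  | succ n ih =>
    obtain ⟨r, P', rfl, h1, h2⟩ := (Sh_succ n P).1 h
    rw [List.map_cons, Sh_cons]
    exact ⟨by rw [hl, h1], ih P' h2⟩

private theorem ch2 {β : Type} (g : List β → List β) (c : β → ℝ) (y z y' z' : ℝ)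
    (hl : ∀ l, lin (A := ℝ) c (g l) y z = lin (A := ℝ) c l y' z') (x : ℝ) (P : List (List β)) :
    ter (A := ℝ) c (P.map g) x y z = ter (A := ℝ) c P x y' z' := by
  induction P with
  | nil => rfl
  | cons r P ih => rw [List.map_cons, ter_cons, ter_cons, hl, ih]

theorem chi (hR : ROWStmt) (hT : TRStmt) : CHIStmt := by
  intro α _ a b P
  have e1 : ∀ {β : Type} [AddCommMonoid β] (Q : List (List β)), child1G a b Q = tr (Q.map (row1G a b)) := fun _ => rfl
  have e2 : ∀ {β : Type} [AddCommMonoid β] (Q : List (List β)), child2G a b Q = tr (Q.map (row2G a b)) := fun _ => rfl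
  refine ⟨?_, ?_⟩
  · intro f
    refine ⟨?_, ?_⟩
    · have k1 : child1 a b (P.map (List.map f)) = tr (mp (row1 a b) (P.map (List.map f))) := rfl
      rw [k1, mp_eq, List.map_map, e1, ← ((hT α (P.map (row1G a b))).1 ℕ f).1, List.map_map]
      congr 1
      apply List.map_congr_left
      intro l _
      exact ((hR α a b l).1 f).1
    · have k1 : child2 a b (P.map (List.map f)) = tr (mp (row2 a b) (P.map (List.map f))) := rfl
      rw [k1, mp_eq, List.map_map, e2, ← ((hT α (P.map (row2G a b))).1 ℕ f).1, List.map_map]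
      congr 1
      apply List.map_congr_left
      intro l _
      exact ((hR α a b l).1 f).2
  · intro n h
    have s1 : Sh n (P.map (row1G a b)) := ch1 _ (fun l => (hR α a b l).2.1) n P h
    have s2 : Sh n (P.map (row2G a b)) := ch1 _ (fun l => (hR α a b l).2.2.1) n P h
    obtain ⟨t1, -, u1⟩ := (hT α (P.map (row1G a b))).2 n s1
    obtain ⟨t2, -, u2⟩ := (hT α (P.map (row2G a b))).2 n s2
    refine ⟨t1, t2, ?_⟩
    intro c y1 y2 y3
    refine ⟨?_, ?_⟩
    · rw [e1, (u1 ℝ ℝ (c : α → ℝ) y1 y2 y3).1]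
      exact ch2 _ _ _ _ _ _ (fun l => ((hR α a b l).2.2.2 c y1 y3).1) y2 P
    · rw [e2, (u2 ℝ ℝ (c : α → ℝ) y1 y2 y3).1]
      exact ch2 _ _ _ _ _ _ (fun l => ((hR α a b l).2.2.2 c y1 y3).2) y2 P

end Pool.TRI.K
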