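import Pool.Agent.H89.TRI.Lib

/-! Module TREEB: soundness of the bisection of binary forms. -/

open MvPolynomial

namespace Pool.TRI.K

private theorem okR_cons (f : ℕ → ℕ → Bool) (c d : ℕ) (r q : List ℕ) :
    okR f (c :: r) (d :: q) = Bool.rec (motive := fun _ => Bool) false (okR f r q) (f c d) := rfl

private theorem okR_imp {α : Type} (o z : α → ℕ) (f : ℕ → ℕ → Bool) (l : List α)
    (h : okR f (l.map o) (l.map z) = true) : ∀ a ∈ l, f (o a) (z a) = true := by
  induction l with
  | nil => intro a ha; simp at ha
  | cons b l ih =>
    rw [List.map_cons, List.map_cons, okR_cons] at h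
    cases hb : f (o b) (z b) with
    | false => rw [hb] at h; exact absurd h (by simp)
    | true =>
      rw [hb] at h
      have h' : okR f (l.map o) (l.map z) = true := h
      intro a ha
      rcases List.mem_cons.1 ha with rfl | ha
      · exact hb
      · exact ih h' a ha

private theorem autoB_zero (f : ℕ → ℕ → Bool) (O Q : List ℕ) : autoB f 0 O Q = okR f O Q := rfl

private theorem autoB_succ (f : ℕ → ℕ → Bool) (n : ℕ) (O Q : List ℕ) : autoB f (n + 1) O Q =
    Bool.rec (motive := fun _ => Bool)
        (Bool.rec (motive := fun _ => Bool) false (autoB f n (row2 1 1 O) (row2 1 1 Q))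
          (autoB f n (row1 1 1 O) (row1 1 1 Q)))
        true (okR f O Q) := rfl

theorem treeb (hR : ROWStmt) : TREEBStmt := by
  intro α _ o z c f hf fuel
  have base : ∀ l : List α, okR f (l.map o) (l.map z) = true →
      ∀ y z' : ℝ, 0 ≤ y → 0 ≤ z' → 0 ≤ lin (A := ℝ) c l y z' := by
    intro l hl y z' hy hz
    exact lin_nonneg _ l (fun a ha => hf a (okR_imp o z f l hl a ha)) y z' hy hz
  induction fuel with
  | zero => intro l hl; exact base l (by rwa [autoB_zero] at hl)
  | succ n ih =>
    intro l hl y z' hy hz
    rw [autoB_succ] at hl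
    cases hb : okR f (l.map o) (l.map z) with
    | true => exact base l hb y z' hy hz
    | false =>
      rw [hb] at hl
      have hl' : Bool.rec (motive := fun _ => Bool) false
          (autoB f n (row2 1 1 (l.map o)) (row2 1 1 (l.map z)))
          (autoB f n (row1 1 1 (l.map o)) (row1 1 1 (l.map z))) = true := hl
      cases h1 : autoB f n (row1 1 1 (l.map o)) (row1 1 1 (l.map z)) with
      | false => rw [h1] at hl'; exact absurd hl' (by simp)
      | true =>
        rw [h1] at hl'
        have h2 : autoB f n (row2 1 1 (l.map o)) (row2 1 1 (l.map z)) = true := hl'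
        obtain ⟨r1, -, -, r4⟩ := hR α 1 1 l
        rw [(r1 o).1, (r1 z).1] at h1
        rw [(r1 o).2, (r1 z).2] at h2
        rcases le_total z' y with h | h
        · have := ih _ h1 z' (y - z') hz (sub_nonneg.2 h)
          rw [(r4 c z' (y - z')).1] at this
          simpa using this
        · have := ih _ h2 y (z' - y) hy (sub_nonneg.2 h)
          rw [(r4 c y (z' - y)).2] at this
          simpa using this

end Pool.TRI.K
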