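import Pool.Agent.H89.TRI.Lib

/-! Module ORD: ordered coefficients. -/

namespace Pool.TRI

private theorem all_iff (c : Fin 3 → ℝ) : (c 0 = c 1 ∧ c 1 = c 2) ↔ ∀ i j, c i = c j := by
  constructor
  · rintro ⟨h1, h2⟩ i j
    fin_cases i <;> fin_cases j <;> simp_all
  · intro h
    exact ⟨h _ _, h _ _⟩

theorem ord (hP : PERMStmt) : ORDStmt := by
  intro T B
  set e := Tuple.sort (fun k => -B.c k) with he
  have hm : Monotone ((fun k => -B.c k) ∘ e) := Tuple.monotone_sort _
  obtain ⟨B', hB⟩ := hP T B e
  refine ⟨B', ?_, ?_, ?_⟩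
  · rw [hB, hB]
    have := hm (show (1 : Fin 3) ≤ 2 by decide)
    simp only [Function.comp_apply] at this
    linarith
  · rw [hB, hB]
    have := hm (show (0 : Fin 3) ≤ 1 by decide)
    simp only [Function.comp_apply] at this
    linarith
  · rw [all_iff B.c, all_iff B'.c]
    constructor
    · intro h i j
      rw [hB, hB]; exact h _ _
    · intro h i j
      have := h (e.symm i) (e.symm j)
      rwa [hB, hB, Equiv.apply_symm_apply, Equiv.apply_symm_apply] at this

end Pool.TRI
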