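import Pool.Agent.H89.TRI.Lib

/-! Module ALGA: sums, differences and integer multiples of nets. -/

open MvPolynomial

namespace Pool.TRI.K

private noncomputable def fC : ℤ → MP := fun a => (C (a : ℝ) : MP)

private theorem toP_nil : toP [] = 0 := rfl

private theorem toP_cons (r : Row) (P : Net) :
    toP (r :: P) = lin (A := MP) fC r (X 1) (X 2) + X 0 * toP P := by
  unfold toP fC
  rw [ter_cons, smul_eq_mul]

private theorem fC_add (a b : ℤ) : fC (a + b) = fC a + fC b := by
  unfold fC; push_cast; rw [C_add]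

private theorem lin_neg' (l : Row) (y z : MP) :
    lin (A := MP) (fun a => -fC a) l y z = -lin (A := MP) fC l y z := by
  induction l with
  | nil => simp
  | cons a l ih => simp only [lin_cons, ih, smul_eq_mul]; ring

private theorem row_add (l m : Row) (h : l.length = m.length) (y z : MP) :
    lin (A := MP) fC (addR l m) y z = lin (A := MP) fC l y z + lin (A := MP) fC m y z := by
  rw [addR_eq]
  exact lin_zip _ _ _ _ (fun a b => fC_add a b) l m h y z

private theorem row_sub (l m : Row) (h : l.length = m.length) (y z : MP) :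
    lin (A := MP) fC (subR l m) y z = lin (A := MP) fC l y z - lin (A := MP) fC m y z := by
  rw [subR_eq, lin_zip (A := MP) (fun a b : ℤ => a - b) fC fC (fun b => -fC b) ?_ l m h y z, lin_neg',
    sub_eq_add_neg]
  intro a b
  show fC (a - b) = fC a + -fC b
  unfold fC
  push_cast
  rw [C_sub, sub_eq_add_neg]

private theorem row_sm (c : ℤ) (l : Row) (y z : MP) :
    lin (A := MP) fC (smR c l) y z = (c : ℝ) • lin (A := MP) fC l y z := by
  rw [smR_eq, lin_map]
  have h : (fun b : ℤ => fC (c * b)) = fun b => (C (c : ℝ) : MP) • fC b := by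
    funext b
    unfold fC
    push_cast
    rw [C_mul, smul_eq_mul]
  rw [h, lin_smul, smul_eq_mul, MvPolynomial.smul_eq_C_mul]

theorem alga : ALGAStmt := by
  refine ⟨?_, ?_, ?_⟩
  · intro n
    induction n with
    | zero =>
      intro P Q hP hQ
      rw [Sh_zero] at hP hQ
      subst hP hQ
      rw [addN_eq]
      exact ⟨rfl, by simp [toP_nil]⟩
    | succ n ih =>
      intro P Q hP hQ
      obtain ⟨r, P', rfl, h1, h2⟩ := (Sh_succ n P).1 hP
      obtain ⟨q, Q', rfl, k1, k2⟩ := (Sh_succ n Q).1 hQ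
      obtain ⟨i1, i2⟩ := ih P' Q' h2 k2
      have e : addN (r :: P') (q :: Q') = addR r q :: addN P' Q' := rfl
      rw [e]
      refine ⟨(Sh_cons _ _ _).2 ⟨?_, i1⟩, ?_⟩
      · rw [addR_eq]; simp [h1, k1]
      · rw [toP_cons, toP_cons, toP_cons, i2, row_add r q (h1.trans k1.symm)]; ring
  · intro n
    induction n with
    | zero =>
      intro P Q hP hQ
      rw [Sh_zero] at hP hQ
      subst hP hQ
      rw [subN_eq]
      exact ⟨rfl, by simp [toP_nil]⟩
    | succ n ih =>
      intro P Q hP hQ
      obtain ⟨r, P', rfl, h1, h2⟩ := (Sh_succ n P).1 hP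
      obtain ⟨q, Q', rfl, k1, k2⟩ := (Sh_succ n Q).1 hQ
      obtain ⟨i1, i2⟩ := ih P' Q' h2 k2
      have e : subN (r :: P') (q :: Q') = subR r q :: subN P' Q' := rfl
      rw [e]
      refine ⟨(Sh_cons _ _ _).2 ⟨?_, i1⟩, ?_⟩
      · rw [subR_eq]; simp [h1, k1]
      · rw [toP_cons, toP_cons, toP_cons, i2, row_sub r q (h1.trans k1.symm)]; ring
  · intro n
    induction n with
    | zero =>
      intro c P hP
      rw [Sh_zero] at hP
      subst hP
      exact ⟨rfl, by simp [smN_eq, toP_nil]⟩
    | succ n ih =>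
      intro c P hP
      obtain ⟨r, P', rfl, h1, h2⟩ := (Sh_succ n P).1 hP
      obtain ⟨i1, i2⟩ := ih c P' h2
      have e : smN c (r :: P') = smR c r :: smN c P' := rfl
      rw [e]
      refine ⟨(Sh_cons _ _ _).2 ⟨?_, i1⟩, ?_⟩
      · rw [smR_eq]; simp [h1]
      · rw [toP_cons, toP_cons, i2, row_sm, smul_add, mul_smul_comm]

end Pool.TRI.K
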